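import Mathlib

/-!
For every `k ≥ 5` a `K_5`-free graph with cochromatic number `k` and chromatic number `k + 3`.
-/

namespace Pool.Agent.Results.MP_a38e10_co.GapThree

open SimpleGraph Finset

/-- The vertex set splits into `n` classes, each an independent set or a clique. -/
def Co {V : Type} (G : SimpleGraph V) (n : ℕ) : Prop :=
  ∃ c : V → Fin n, ∀ i, G.IsIndepSet {v | c v = i} ∨ G.IsClique {v | c v = i}

lemma colS {W β : Type} (H : SimpleGraph W) (f : W → β) (s : Finset β)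
    (h1 : ∀ u v, H.Adj u v → f u ≠ f v) (h2 : ∀ u, f u ∈ s) : H.Colorable s.card := by
  have := (Coloring.mk (G := H) (fun u => (⟨f u, h2 u⟩ : s))
    fun {u v} h e => h1 u v h (congrArg Subtype.val e)).colorable
  rwa [Fintype.card_coe] at this

lemma shadow {W β : Type} (H : SimpleGraph W) (f g : W → β) (a : β) (s : Finset β)
    (h1 : ∀ u v, H.Adj u v → f u ≠ f v ∧ f u ≠ g v)
    (h2 : ∀ u, (f u = a ∨ f u ∈ s) ∧ g u ∈ s) : H.Colorable s.card := by
  classical
  refine colS H (fun u => if f u = a then g u else f u) s (fun u v h => ?_) fun u => ?_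
  · have := h1 u v h
    have := h1 v u h.symm
    split_ifs <;> grind
  · have := h2 u
    split_ifs <;> grind

def TF {W : Type} (H : SimpleGraph W) : Prop :=
  ∀ a b c, H.Adj a b → H.Adj a c → H.Adj b c → False

def myc {W : Type} (H : SimpleGraph W) : SimpleGraph (Option (W × Bool)) where
  Adj
    | none, none => False
    | none, some y => y.2 = true
    | some x, none => x.2 = true
    | some x, some y => H.Adj x.1 y.1 ∧ (x.2 = false ∨ y.2 = false)
  symm := ⟨by rintro (_ | x) (_ | y) h; exacts [h, h, h, ⟨h.1.symm, h.2.symm⟩]⟩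
  loopless := ⟨by rintro (_ | x) h; exacts [h, h.1.ne rfl]⟩

lemma exH (p : ℕ) : ∃ (W : Type) (_ : Fintype W) (H : SimpleGraph W),
    TF H ∧ H.Colorable (p + 1) ∧ ¬ H.Colorable p := by
  induction p with
  | zero =>
    refine ⟨Unit, inferInstance, ⊥, fun _ _ _ h => h.elim, ⟨Coloring.mk (fun _ => 0) fun h => h.elim⟩,
      fun ⟨c⟩ => (c ()).elim0⟩
  | succ p ih =>
    obtain ⟨W, _, H, h1, ⟨c⟩, h3⟩ := ih
    refine ⟨_, inferInstance, myc H, ?_, ?_, fun ⟨d⟩ => h3 ?_⟩
    · rintro (_ | a) (_ | b) (_ | e) x y z <;> simp only [myc] at x y z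
      · grind
      · grind
      · grind
      · exact h1 _ _ _ x.1 y.1 z.1
    · have := (Coloring.mk (G := myc H) (Option.map fun x => c x.1) ?_).colorable
      · simpa using this
      · rintro (_ | a) (_ | b) h <;> simp [myc] at h ⊢
        exact c.valid h.1
    · have := shadow H (fun u => d (some (u, false))) (fun u => d (some (u, true))) (d none)
        (univ.erase (d none)) (fun u v h => ⟨d.valid ⟨h, .inl rfl⟩, d.valid ⟨h, .inl rfl⟩⟩)
        fun u => ⟨by simp [em], mem_erase.2 ⟨d.valid (show _ = _ from rfl), mem_univ _⟩⟩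
      simpa using this

def r (a b : Fin 11) : Bool :=
  a != b && !Nat.testBit 155957969224415845059725508222288168 (11 * a.val + b.val)

def Tri (T : Finset (Fin 11)) : Prop :=
  ∀ a ∈ T, ∀ b ∈ T, ∀ c ∈ T, r a b = true → r a c = true → r b c = true → False

instance (T) : Decidable (Tri T) := by unfold Tri; infer_instance

lemma r_symm : ∀ a b, r a b = true → r b a = true := by decide +kernel
lemma r_irr : ∀ a, r a a = false := by decide +kernel
lemma five : ∀ A : Finset (Fin 11), 4 < A.card →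
    (∃ a ∈ A, ∃ b ∈ A, a ≠ b ∧ r a b = false) ∧ ∃ a ∈ A, ∃ b ∈ A, r a b = true := by
  decide +kernel

abbrev E := Fin 11 × Fin 11

def EL : List E := [(0, 3), (0, 5), (0, 8), (1, 4), (1, 6), (1, 9), (2, 5), (2, 6), (2, 7),
  (3, 7), (3, 9), (3, 10), (4, 7), (4, 8), (4, 10), (5, 9), (5, 10), (6, 8), (6, 10), (8, 9)]

def TL : List (List (Fin 11)) := [[0, 2, 3, 5, 7], [0, 2, 5, 6, 8], [0, 3, 4, 7, 8],
  [0, 3, 4, 8, 10], [0, 3, 6, 8, 10], [0, 4, 5, 8, 10], [0, 5, 6, 8, 10], [1, 2, 4, 6, 7],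
  [1, 2, 5, 6, 9], [1, 3, 4, 7, 9], [1, 3, 4, 9, 10], [1, 3, 6, 9, 10], [1, 4, 5, 9, 10],
  [1, 5, 6, 9, 10], [2, 3, 5, 7, 9], [2, 3, 5, 7, 10], [2, 3, 6, 7, 10], [2, 4, 5, 7, 10],
  [2, 4, 6, 7, 8], [2, 4, 6, 7, 10], [2, 5, 6, 8, 9], [3, 4, 7, 8, 9], [3, 4, 8, 9, 10],
  [3, 6, 8, 9, 10], [4, 5, 8, 9, 10], [5, 6, 8, 9, 10]]

def sh (e f : E) : Bool := (e.1 == f.1 || e.1 == f.2 || e.2 == f.1 || e.2 == f.2) &&
  (r e.1 f.1 || r e.1 f.2 || r e.2 f.1 || r e.2 f.2)

def dfs : List E → List E → Bool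
  | [], M => TL.any fun T => M.all fun e => !(T.elem e.1 && T.elem e.2)
  | e :: l, M => dfs l M && (M.any (sh e) || dfs l (e :: M))

lemma dfs_ok {β : Type} (c : Fin 11 → β) (hc : ∀ a b, r a b = true → c a ≠ c b) :
    ∀ l M, dfs l M = true → (∀ e ∈ M, c e.1 = c e.2) → ∃ T ∈ TL, ∀ e : E,
      e ∈ M ∨ (e ∈ l ∧ c e.1 = c e.2) → ¬ (e.1 ∈ T ∧ e.2 ∈ T) := by
  intro l
  induction l with
  | nil =>
    intro M h _
    simpa [dfs, -not_and, not_and_or] using h
  | cons e l ih =>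
    intro M h hM
    simp only [dfs, Bool.and_eq_true, Bool.or_eq_true, List.any_eq_true] at h
    by_cases he : c e.1 = c e.2
    · rcases h.2 with ⟨f, hf, h⟩ | h
      · have := hM f hf
        simp only [sh, Bool.and_eq_true, Bool.or_eq_true, beq_iff_eq] at h
        have := hc e.1 f.1
        have := hc e.1 f.2
        have := hc e.2 f.1
        have := hc e.2 f.2
        grind
      · obtain ⟨T, hT, h⟩ := ih _ h (by simpa [he] using hM)
        exact ⟨T, hT, fun f hf => h f (by simp only [List.mem_cons] at hf ⊢; tauto)⟩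
    · obtain ⟨T, hT, h⟩ := ih _ h.1 hM
      refine ⟨T, hT, fun f hf => h f ?_⟩
      simp only [List.mem_cons] at hf
      grind

lemma rainbow {β : Type} [DecidableEq β] (c : Fin 11 → β)
    (hc : ∀ a b, r a b = true → c a ≠ c b) :
    ∃ T x, Tri T ∧ (insert (c x) (T.image c)).card = 6 := by
  obtain ⟨T, hT, h⟩ := dfs_ok c hc EL [] (by decide +kernel) (by simp)
  have h1 : ∀ T ∈ TL, Tri T.toFinset ∧ T.toFinset.card = 5 := by decide +kernel
  have h2 : ∀ a b, a = b ∨ r a b = true ∨ (a, b) ∈ EL ∨ (b, a) ∈ EL := by decide +kernel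
  have h3 : (T.toFinset.image c).card = 5 := by
    rw [card_image_of_injOn, (h1 T hT).2]
    intro a ha b hb e
    simp only [List.coe_toFinset, Set.mem_setOf_eq] at ha hb
    rcases h2 a b with h4 | h4 | h4 | h4
    exacts [h4, absurd e (hc a b h4), absurd ⟨ha, hb⟩ (h (a, b) (.inr ⟨h4, e⟩)),
      absurd ⟨hb, ha⟩ (h (b, a) (.inr ⟨h4, e.symm⟩))]
  by_cases hx : ∀ x, c x ∈ T.toFinset.image c
  · obtain ⟨y, -, hy⟩ := exists_lt_card_fiber_of_mul_lt_card_of_maps_to (s := univ) (n := 2)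
      (fun x _ => hx x) (by rw [h3]; decide)
    obtain ⟨a, b, d, ha, hb, hd, e1, e2, e3⟩ := two_lt_card_iff.1 hy
    have h5 : ∀ a b d : Fin 11, a ≠ b → a ≠ d → b ≠ d →
      r a b = true ∨ r a d = true ∨ r b d = true := by decide +kernel
    simp only [mem_filter] at ha hb hd
    have := hc a b
    have := hc a d
    have := hc b d
    have := h5 a b d e1 e2 e3
    grind
  · obtain ⟨x, hx⟩ := not_forall.1 hx
    exact ⟨_, x, (h1 T hT).1, by rw [card_insert_of_notMem hx, h3]⟩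

abbrev Ix (k : ℕ) := {T : Finset (Fin 11) // Tri T} × Fin 11 × Fin k

def G {W : Type} (H : SimpleGraph W) (k : ℕ) : SimpleGraph (Fin 11 ⊕ (Ix k × W × Bool)) where
  Adj
    | .inl a, .inl b => r a b = true
    | .inl a, .inr y => a ∈ y.1.1.1 ∨ (y.2.2 = true ∧ a = y.1.2.1)
    | .inr y, .inl a => a ∈ y.1.1.1 ∨ (y.2.2 = true ∧ a = y.1.2.1)
    | .inr x, .inr y => x.1 = y.1 ∧ H.Adj x.2.1 y.2.1 ∧ (x.2.2 = false ∨ y.2.2 = false)
  symm := ⟨by
    rintro (x | x) (y | y) h
    exacts [r_symm _ _ h, h, h, ⟨h.1.symm, h.2.1.symm, h.2.2.symm⟩]⟩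
  loopless := ⟨by
    rintro (x | x) h
    exacts [by simp [r_irr] at h, h.2.1.ne rfl]⟩

variable {W : Type} (H : SimpleGraph W)

lemma k5 (k : ℕ) (h : TF H) : (G H k).CliqueFree 5 := by
  classical
  rintro S ⟨h1, h2⟩
  rw [← card_toLeft_add_card_toRight] at h2
  have tri : ∀ (T : Finset (Fin 11)), Tri T → ∀ A ⊆ S.toLeft, A ⊆ T → A.card ≤ 2 := by
    intro T hT A hA hAT
    by_contra hc
    obtain ⟨a, b, d, ha, hb, hd, e1, e2, e3⟩ := two_lt_card_iff.1 (not_le.1 hc)
    have q : ∀ a ∈ A, ∀ b ∈ A, a ≠ b → r a b = true := fun a ha b hb e =>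
      h1 (mem_toLeft.1 (hA ha)) (mem_toLeft.1 (hA hb)) (by simpa using e)
    exact hT a (hAT ha) b (hAT hb) d (hAT hd) (q a ha b hb e1) (q a ha d hd e2) (q b hb d hd e3)
  have q : ∀ a ∈ S.toRight, ∀ b ∈ S.toRight, a ≠ b → (G H k).Adj (.inr a) (.inr b) :=
    fun a ha b hb e => h1 (mem_toRight.1 ha) (mem_toRight.1 hb) (by simpa using e)
  have q' : ∀ a ∈ S.toLeft, ∀ b ∈ S.toRight, (G H k).Adj (.inl a) (.inr b) :=
    fun a ha b hb => h1 (mem_toLeft.1 ha) (mem_toRight.1 hb) (by simp)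
  by_cases c3 : 2 < S.toRight.card
  · obtain ⟨a, b, d, ha, hb, hd, e1, e2, e3⟩ := two_lt_card_iff.1 c3
    exact h _ _ _ (q a ha b hb e1).2.1 (q a ha d hd e2).2.1 (q b hb d hd e3).2.1
  by_cases c2 : 1 < S.toRight.card
  · obtain ⟨a, ha, b, hb, e⟩ := one_lt_card.1 c2
    rcases (q a ha b hb e).2.2 with e | e
    · have := tri _ a.1.1.2 _ subset_rfl fun x hx => (q' x hx a ha).resolve_right (by simp [e])
      omega
    · have := tri _ b.1.1.2 _ subset_rfl fun x hx => (q' x hx b hb).resolve_right (by simp [e])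
      omega
  by_cases c1 : 0 < S.toRight.card
  · obtain ⟨a, ha⟩ := card_pos.1 c1
    have := tri _ a.1.1.2 _ (erase_subset a.1.2.1 _) fun x hx =>
      (q' x (mem_erase.1 hx).2 a ha).resolve_right fun e => (mem_erase.1 hx).1 e.2
    have := pred_card_le_card_erase (s := S.toLeft) (a := a.1.2.1)
    omega
  · obtain ⟨a, ha, b, hb, e, e'⟩ := (five S.toLeft (by omega)).1
    have : r a b = true := h1 (mem_toLeft.1 ha) (mem_toLeft.1 hb) (by simpa using e)
    simp [this] at e'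

lemma ncol (p k : ℕ) (h : ¬ H.Colorable p) : ¬ (G H (k + 1)).Colorable (p + 6) := by
  rintro ⟨d⟩
  obtain ⟨T, x, hT, h6⟩ := rainbow (fun a => d (.inl a)) fun a b e => d.valid e
  have := shadow H (fun u => d (.inr ((⟨T, hT⟩, x, 0), u, false)))
    (fun u => d (.inr ((⟨T, hT⟩, x, 0), u, true))) (d (.inl x))
    (univ \ insert (d (.inl x)) (T.image fun a => d (.inl a)))
    (fun u v h => ⟨d.valid ⟨rfl, h, .inl rfl⟩, d.valid ⟨rfl, h, .inl rfl⟩⟩) fun u => ?_
  · rw [card_univ_diff, h6] at this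
    exact h (by simpa using this)
  · have e : ∀ s, ∀ a ∈ T, d (.inl a) ≠ d (.inr ((⟨T, hT⟩, x, 0), u, s)) :=
      fun s a ha => d.valid (Or.inl ha)
    have e' : d (.inl x) ≠ d (.inr ((⟨T, hT⟩, x, 0), u, true)) := d.valid (Or.inr ⟨rfl, rfl⟩)
    simp only [mem_sdiff, mem_univ, true_and, mem_insert, mem_image, not_or, not_exists, not_and]
    exact ⟨(em _).imp id fun h => ⟨h, e _⟩, e'.symm, e _⟩

lemma nco (p n : ℕ) (h : ¬ H.Colorable p) (hn : n < p + 4) : ¬ Co (G H (p + 3 + 1)) n := by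
  classical
  rintro ⟨c, hc⟩
  by_cases hP : ∀ i, (G H (p + 3 + 1)).IsIndepSet {v | c v = i}
  · exact ncol H p (p + 3) h (Colorable.mono (by omega) ⟨Coloring.mk c fun {u v} e e' =>
      hP (c v) e' rfl e.ne e⟩)
  obtain ⟨π, hπ⟩ := not_forall.1 hP
  have h3 : 2 < (univ.image fun a => c (.inl a)).card := by
    by_contra h3
    obtain ⟨y, -, hy⟩ := exists_lt_card_fiber_of_mul_lt_card_of_maps_to (s := univ) (n := 4)
      (fun x _ => mem_image_of_mem (fun a => c (.inl a)) (mem_univ x))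
      (by simp only [card_univ, Fintype.card_fin]; omega)
    obtain ⟨⟨a, ha, b, hb, e, e'⟩, a', ha', b', hb', f⟩ := five _ hy
    simp only [mem_filter] at ha hb ha' hb'
    rcases hc y with h4 | h4
    · exact h4 ha'.2 hb'.2 (by rintro ⟨rfl⟩; simp [r_irr] at f) f
    · have : r a b = true := h4 ha.2 hb.2 (by simpa using e)
      simp [this] at e'
  have h2 := pred_card_le_card_erase (s := univ.image fun a => c (.inl a)) (a := π)
  obtain ⟨_, hy, _, hz, e⟩ := one_lt_card.1 (show 1 < ((univ.image fun a => c (.inl a)).erase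
    π).card by omega)
  simp only [mem_erase, mem_image, mem_univ, true_and] at hy hz
  obtain ⟨hy, y, rfl⟩ := hy
  obtain ⟨hz, z, rfl⟩ := hz
  have hT : Tri {y, z} := by
    intro a ha b hb d hd
    simp only [mem_insert, mem_singleton] at ha hb hd
    rcases ha with rfl | rfl <;> rcases hb with rfl | rfl <;> rcases hd with rfl | rfl <;>
      simp [r_irr]
  by_cases hi : ∀ i, ∃ u, ¬ (G H (p + 3 + 1)).IsIndepSet
      {v | c v = c (.inr ((⟨_, hT⟩, y, i), u, false))}
  · choose u hu using hi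
    have := Fintype.card_le_of_injective (fun i => c (.inr ((⟨_, hT⟩, y, i), u i, false)))
      fun i j e => by
        by_contra hij
        have := ((hc _).resolve_left (hu j) e rfl (by simp [hij])).1
        simp [hij] at this
    simp only [Fintype.card_fin] at this
    omega
  · simp only [not_forall, not_exists, not_not] at hi
    obtain ⟨i, hi⟩ := hi
    have := colS H (fun u => c (.inr ((⟨_, hT⟩, y, i), u, false)))
      (univ \ {π, c (.inl y), c (.inl z)})
      (fun u v e e' => hi v e' rfl (by simp [e.ne]) ⟨rfl, e, .inl rfl⟩) fun u => ?_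
    · rw [card_univ_diff, card_eq_three.2 ⟨_, _, _, hy.symm, hz.symm, e, rfl⟩] at this
      exact h (this.mono (by simp; omega))
    · simp only [mem_sdiff, mem_univ, true_and, mem_insert, mem_singleton, not_or]
      exact ⟨fun e => hπ (e ▸ hi u), fun e => hi u e.symm rfl (by simp) (Or.inl (by simp)),
        fun e => hi u e.symm rfl (by simp) (Or.inl (by simp))⟩

theorem result (k : ℕ) (hk : 5 ≤ k) : ∃ (V : Type) (_ : Fintype V) (Γ : SimpleGraph V),
    Γ.CliqueFree 5 ∧ IsLeast {n | Co Γ n} k ∧ Γ.chromaticNumber = k + 3 := by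
  obtain ⟨p, rfl⟩ : ∃ p, k = p + 4 := ⟨k - 4, by omega⟩
  obtain ⟨W, _, H, h1, ⟨c⟩, h3⟩ := exH p
  refine ⟨_, inferInstance, G H (p + 3 + 1), k5 H _ h1, ⟨?_, fun n hn => ?_⟩, ?_⟩
  · have e : ∀ a b : Fin 11, a ≠ b → (![0, 1, 0, 2, 0, 2, 2, 1, 1, 0, 1] : Fin 11 → Fin 3) a =
      (![0, 1, 0, 2, 0, 2, 2, 1, 1, 0, 1] : Fin 11 → Fin 3) b → r a b = true := by decide +kernel
    refine ⟨Sum.elim (fun a => Fin.natAdd (p + 1) (![0, 1, 0, 2, 0, 2, 2, 1, 1, 0, 1] a : Fin 3))
      fun y => Fin.castAdd 3 (c y.2.1), fun i => ?_⟩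
    refine Fin.addCases (m := p + 1) (n := 3) (fun i => .inl ?_) (fun i => .inr ?_) i
    · rintro (a | a) ha (b | b) hb hab h <;>
        simp only [Set.mem_setOf_eq, Sum.elim_inl, Sum.elim_inr, Fin.ext_iff, Fin.val_natAdd,
          Fin.val_castAdd] at ha hb
      · omega
      · omega
      · omega
      · exact c.valid h.2.1 (Fin.ext (ha.trans hb.symm))
    · rintro (a | a) ha (b | b) hb hab <;>
        simp only [Set.mem_setOf_eq, Sum.elim_inl, Sum.elim_inr, Fin.ext_iff, Fin.val_natAdd,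
          Fin.val_castAdd] at ha hb
      · exact e a b (by simpa using hab) (Fin.ext (by omega))
      · omega
      · omega
      · omega
  · by_contra h
    exact nco H p n h3 (by omega) hn
  · have e : ∀ a b : Fin 11, r a b = true →
      (![0, 1, 2, 0, 1, 2, 3, 5, 4, 4, 3] : Fin 11 → Fin 6) a ≠
      (![0, 1, 2, 0, 1, 2, 3, 5, 4, 4, 3] : Fin 11 → Fin 6) b := by decide +kernel
    have := (Coloring.mk (G := G H (p + 3 + 1))
      (Sum.map (![0, 1, 2, 0, 1, 2, 3, 5, 4, 4, 3] : Fin 11 → Fin 6) fun y => c y.2.1) ?_).colorable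
    · have := chromaticNumber_eq_iff_colorable_not_colorable.2
        ⟨(show (G H (p + 3 + 1)).Colorable (p + 6 + 1) from this.mono (by simp; omega)),
          ncol H p _ h3⟩
      rw [this]; push_cast; ring
    · rintro (a | a) (b | b) h <;> simp only [Sum.map_inl, Sum.map_inr, ne_eq, Sum.inl.injEq,
        Sum.inr.injEq, reduceCtorEq, not_false_eq_true]
      exacts [e a b h, c.valid h.2.1]

end Pool.Agent.Results.MP_a38e10_co.GapThree
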